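import Pool.Agent.H8.AV3.Stmts5
import Pool.Agent.H1.AV3B.LCU3

/-!
# LCL3: not more pairs (lattice, good point)
-/

set_option autoImplicit false

namespace Pool.Agent.H87.AV3C

open Polynomial Matrix Pool.AVR Pool.AV3 WeierstrassCurve.Affine Pool.Agent.H1.AV3B.LCU3

namespace LCL3

theorem greedy {α : Type} [Nonempty α] (M : ℕ) (A : ℕ → Set α)
    (hA : ∀ i < M, ∀ B : Set α, B.Finite → ∃ t ∈ A i, t ∉ B) (C : Set α) (hC : C.Finite)
    (bd : α → α → Set α) (hbd : ∀ s t, (bd s t).Finite) : ∀ n ≤ M, ∃ T : ℕ → α,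
      ∀ i < n, T i ∈ A i ∧ T i ∉ C ∧ ∀ j < i, T i ∉ bd (T 0) (T j) := by
  intro n
  induction n with
  | zero =>
    intro _
    exact ⟨fun _ => Classical.arbitrary α, fun i hi => absurd hi (Nat.not_lt_zero i)⟩
  | succ n ih =>
    intro hn
    obtain ⟨T, hT⟩ := ih (by omega)
    obtain ⟨t, ht1, ht2⟩ := hA n (by omega) (C ∪ ⋃ j ∈ Finset.range n, bd (T 0) (T j))
      (hC.union (Set.Finite.biUnion (Finset.finite_toSet _) (fun j _ => hbd _ _)))
    refine ⟨Function.update T n t, fun i hi => ?_⟩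
    rcases Nat.lt_or_ge i n with h1 | h1
    · have hin : i ≠ n := by omega
      rw [Function.update_of_ne hin]
      refine ⟨(hT i h1).1, (hT i h1).2.1, fun j hj => ?_⟩
      have h0 : (0 : ℕ) ≠ n := by omega
      have h2 : j ≠ n := by omega
      rw [Function.update_of_ne h0, Function.update_of_ne h2]
      exact (hT i h1).2.2 j hj
    · have h2 : i = n := by omega
      subst h2
      rw [Function.update_self]
      refine ⟨ht1, fun h => ht2 (Or.inl h), fun j hj => ?_⟩
      have h0 : (0 : ℕ) ≠ i := by omega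
      have h2 : j ≠ i := by omega
      rw [Function.update_of_ne h0, Function.update_of_ne h2]
      intro h
      refine ht2 (Or.inr ?_)
      simp only [Set.mem_iUnion]
      exact ⟨j, by simpa using hj, h⟩

theorem sq_mem {L : Type} [Field L] (O : ValuationSubring L) {z : L} (hz : z ^ 2 ∈ O) : z ∈ O := by
  rcases O.mem_or_inv_mem z with h1 | h1
  · exact h1
  · by_cases h0 : z = 0
    · rw [h0]
      exact O.zero_mem
    · have h2 : z = z ^ 2 * z⁻¹ := by
        field_simp
      rw [h2]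
      exact O.mul_mem _ _ hz h1

theorem phi_eq {K : Type} [Field K] [DecidableEq K] {a b c x y x₀ y₀ : K}
    (h : (E a b c).toAffine.Nonsingular x y) (hx : x ≠ x₀) :
    phi x₀ y₀ (Point.some x y h : Pt a b c) = ![(y + y₀) / (x - x₀), x, 1] := by
  simp only [phi]
  rw [if_neg (fun h1 => hx h1.1), WeierstrassCurve.Affine.slope_of_X_ne hx, sub_neg_eq_add]

section Points

variable {L : Type} [Field L] [DecidableEq L]

omit [DecidableEq L] in
theorem ytwo_fin (a b c : L) :
    {T : Pt a b c | ∃ (x : L) (h : (E a b c).toAffine.Nonsingular x 0), T = Point.some x 0 h}.Finite := by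
  classical
  let f : L → Pt a b c := fun x =>
    if h : (E a b c).toAffine.Nonsingular x 0 then Point.some x 0 h else 0
  refine Set.Finite.subset ((roots_fin a b c).image f) ?_
  rintro T ⟨x, h, rfl⟩
  refine ⟨x, ?_, ?_⟩
  · have h1 := onC_of h
    unfold OnC at h1
    simp only [Set.mem_ofPred_eq]
    linear_combination -h1
  · show f x = _
    simp only [f]
    rw [dif_pos h]

theorem three_fin {G : Type} [AddCommGroup G] (hfin : {T : G | T + T + T = 0}.Finite) (Q : G) :
    {T : G | T + T + T = Q}.Finite := by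
  by_cases h : ∃ T₁ : G, T₁ + T₁ + T₁ = Q
  · obtain ⟨T₁, hT₁⟩ := h
    refine Set.Finite.subset (hfin.image (fun R => R + T₁)) ?_
    intro T hT
    simp only [Set.mem_ofPred_eq] at hT
    refine ⟨T - T₁, ?_, by simp⟩
    simp only [Set.mem_ofPred_eq]
    have : T - T₁ + (T - T₁) + (T - T₁) = (T + T + T) - (T₁ + T₁ + T₁) := by abel
    rw [this, hT, hT₁, sub_self]
  · have : {T : G | T + T + T = Q} = ∅ := by
      ext T
      simp only [Set.mem_ofPred_eq, Set.mem_empty_iff_false, iff_false]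
      exact fun h1 => h ⟨T, h1⟩
    rw [this]
    exact Set.finite_empty

end Points

end LCL3

open LCL3

theorem lcl3_core (hONT : ONTStmt) (hTRG : TRGStmt) (hLTN : LTNStmt) (hUNE : UNEStmt)
    (hHNS : HNS3Stmt) (hTOR : TOR3Stmt) (hEBU : AVS.EBUStmt) (hDSC : DSCStmt) (hGIR : GIRStmt)
    (hEQR : EQRStmt) (hDVP : DVPStmt) (L : Type) [Field L] (O : ValuationSubring L) (π : L)
    (hL : AVS.Loc L O π) (N : ℕ) (a b c : O) (hdisc : disc a b c ∉ (IsLocalRing.maximalIdeal O) ^ N)
    (x₀ y₀ : L) (h₀ : (E (a : L) (b : L) (c : L)).toAffine.Nonsingular x₀ y₀)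
    (M : ℕ) (g : Fin M → Matrix (Fin 3) (Fin 3) L) (v : Fin M → Fin 3 → L)
    (hKP : ∀ i, KP3 (O : Set L) π (FP (a : L) (b : L) x₀ y₀) (g i) (v i))
    (hNE : ∀ i j, i ≠ j → ¬ Eq3 (O : Set L) π (g i) (v i) (g j) (v j)) :
      M * AVS.kap O ^ (N - 1) ≤
        AVS.nE (AVS.ON O N) (Ideal.Quotient.mk _ a) (Ideal.Quotient.mk _ b)
          (Ideal.Quotient.mk _ c) + AVS.kap O ^ (N - 1) := by
  classical
  have h2 : (2 : L) ≠ 0 := hL.two.1
  have hD : disc (a : L) (b : L) (c : L) ≠ 0 := by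
    have e : disc (O.subtype a) (O.subtype b) (O.subtype c) = O.subtype (disc a b c) := by
      simp only [disc, map_add, map_sub, map_mul, map_pow, map_ofNat]
    intro h
    apply hdisc
    have h1 : disc a b c = 0 := by
      apply Subtype.coe_injective
      exact e.symm.trans h
    rw [h1]
    exact Ideal.zero_mem _
  have hsep : (cub (a : L) (b : L) (c : L)).Separable := ((hDSC L h2 _ _ _).1).2 hD
  have hdv := hDVP.2.2 L O π hL
  obtain ⟨G1, -, -, -, -, G6⟩ := hGIR L (O : Set L) π hdv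
  obtain ⟨R1, R2⟩ := hEQR L (O : Set L) π hdv
  have hπ := hL.pi_ne
  have hmem : ∀ z : L, z / π ∈ O → z ∈ O := by
    intro z hz
    have h1 : z = π * (z / π) := by
      field_simp
    rw [h1]
    exact O.mul_mem _ _ hL.pi_mem hz
  have hY : ∀ X Y : L, OnC (a : L) (b : L) (c : L) X Y → X ∈ O → Y ∈ O := by
    intro X Y hXY hX
    apply sq_mem O
    have h1 : Y ^ 2 = X ^ 3 + (a : L) * X ^ 2 + (b : L) * X + (c : L) := hXY
    rw [h1]
    exact add_mem (add_mem (add_mem (pow_mem hX 3) (mul_mem a.2 (pow_mem hX 2)))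
      (mul_mem b.2 hX)) c.2
  have hone : AVS.UI (O : Set L) (1 : L) :=
    ⟨one_ne_zero, O.one_mem, by rw [inv_one]; exact O.one_mem⟩
  -- the point `Q`
  let Q : Pt (a : L) (b : L) (c : L) := Point.some x₀ y₀ h₀
  obtain ⟨-, hont⟩ := hONT L h2 (a : L) (b : L) (c : L) hsep x₀ y₀ h₀
  -- lifts
  let P : Fin M → Pt (a : L) (b : L) (c : L) → Prop := fun i T =>
    ∃ x : Fin 3 → L, (∀ k, x k ∈ O) ∧ (∀ k, (x k - v i k) / π ∈ O) ∧
      ∃ s : L, s ≠ 0 ∧ g i *ᵥ x = s • phi x₀ y₀ T
  have hP : ∀ i : Fin M, ∀ B : Set (Pt (a : L) (b : L) (c : L)), B.Finite →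
      ∃ T, P i T ∧ T ∉ B := by
    intro i B hB
    obtain ⟨k1, k2, k3⟩ := hKP i
    have hu : IsUnit (g i).det := isUnit_iff_ne_zero.2 k1
    obtain ⟨x, hx1, hx2, hx3, -, hx5⟩ := hHNS L O π hL _ _ k2 k3
      ((fun T => (g i)⁻¹ *ᵥ phi x₀ y₀ T) '' B) (hB.image _)
    have hz : tev (FP (a : L) (b : L) x₀ y₀) (g i *ᵥ x) = 0 := by
      rw [← tev_tsub]
      have e : tsub (FP (a : L) (b : L) x₀ y₀) (g i) =
          (g i).det • (fun j => tsub (FP (a : L) (b : L) x₀ y₀) (g i) j / (g i).det) := by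
        funext j
        rw [Pi.smul_apply, smul_eq_mul]
        field_simp
      rw [e, tev_smul_form, hx3, mul_zero]
    have hinv : ∀ w : Fin 3 → L, (g i)⁻¹ *ᵥ (g i *ᵥ w) = w := by
      intro w
      rw [Matrix.mulVec_mulVec, Matrix.nonsing_inv_mul _ hu, Matrix.one_mulVec]
    have hx0 : x ≠ 0 := by
      intro h0
      obtain ⟨-, ⟨k, hk⟩, -⟩ := k3
      apply hk
      have h1 := hx2 k
      rw [h0] at h1
      have h3 : v i k / π = -(((0 : Fin 3 → L) k - v i k) / π) := by
        rw [Pi.zero_apply, zero_sub]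
        ring
      rw [h3]
      exact neg_mem h1
    have hne : g i *ᵥ x ≠ 0 := by
      intro h0
      apply hx0
      rw [← hinv x, h0, Matrix.mulVec_zero]
    obtain ⟨T, s, hs, hT⟩ := hont _ hne hz
    refine ⟨T, ⟨x, hx1, hx2, s, hs, hT⟩, ?_⟩
    intro hTB
    apply hx5 _ ⟨T, hTB, rfl⟩ s
    show x = s • ((g i)⁻¹ *ᵥ phi x₀ y₀ T)
    rw [← Matrix.mulVec_smul, ← hT, hinv]
  -- the finite exceptional sets
  let C : Set (Pt (a : L) (b : L) (c : L)) := {0} ∪ ({Q} ∪ ({-Q} ∪ ({T | T + T + T = Q} ∪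
    {T | ∃ (x : L) (h : (E (a : L) (b : L) (c : L)).toAffine.Nonsingular x 0),
      T = Point.some x 0 h})))
  have hC : C.Finite :=
    (Set.finite_singleton _).union ((Set.finite_singleton _).union
      ((Set.finite_singleton _).union ((three_fin (hTOR L h2 ((a : L), (b : L), (c : L)) hD).1 Q).union
        (ytwo_fin _ _ _))))
  let bd : Pt (a : L) (b : L) (c : L) → Pt (a : L) (b : L) (c : L) →
      Set (Pt (a : L) (b : L) (c : L)) := fun S T =>
    {T} ∪ ({T + (Q - (T + T + T))} ∪ ({T - (Q - (T + T + T))} ∪ {S + S - T}))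
  have hbd : ∀ S T, (bd S T).Finite := fun S T =>
    (Set.finite_singleton _).union ((Set.finite_singleton _).union
      ((Set.finite_singleton _).union (Set.finite_singleton _)))
  obtain ⟨T, hT⟩ := greedy M (fun i => {T | ∀ h : i < M, P ⟨i, h⟩ T}) (by
    intro i hi B hB
    obtain ⟨T, hT1, hT2⟩ := hP ⟨i, hi⟩ B hB
    exact ⟨T, fun _ => hT1, hT2⟩) C hC bd hbd M le_rfl
  have hTP : ∀ (i : ℕ) (hi : i < M), P ⟨i, hi⟩ (T i) := fun i hi => (hT i hi).1 hi
  have hTC : ∀ i : ℕ, i < M → T i ∉ C := fun i hi => (hT i hi).2.1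
  have hTb : ∀ i : ℕ, i < M → ∀ j < i, T i ∉ bd (T 0) (T j) := fun i hi => (hT i hi).2.2
  -- affine coordinates
  have hTaff : ∀ i : ℕ, i < M → ∃ (x y : L)
      (h : (E (a : L) (b : L) (c : L)).toAffine.Nonsingular x y),
      T i = Point.some x y h ∧ x ≠ x₀ ∧ y ≠ 0 := by
    intro i hi
    have h1 := hTC i hi
    rcases hTi : T i with _ | ⟨x, y, h⟩
    · rw [hTi] at h1
      exact absurd (Or.inl rfl) h1
    · refine ⟨x, y, h, rfl, ?_, ?_⟩
      · intro hx
        subst hx
        rw [hTi] at h1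
        rcases eq_or_neg h h₀ with h4 | h4
        · exact h1 (Or.inr (Or.inl h4))
        · exact h1 (Or.inr (Or.inr (Or.inl h4)))
      · intro hy
        subst hy
        rw [hTi] at h1
        exact h1 (Or.inr (Or.inr (Or.inr (Or.inr ⟨x, h, rfl⟩))))
  -- the main claim
  have main : ∀ i j : ℕ, i < M → j < i → ∃ (X Y : L)
      (H : (E (a : L) (b : L) (c : L)).toAffine.Nonsingular X Y),
      T i - T j = Point.some X Y H ∧ X ∈ O := by
    intro i j hi hji
    have hj : j < M := by omega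
    have hb := hTb i hi j hji
    obtain ⟨xj, yj, hj', hTj, hxj, hyj⟩ := hTaff j hj
    obtain ⟨xi, yi, hi', hTi, hxi, hyi⟩ := hTaff i hi
    have hne : T i - T j ≠ 0 := by
      intro h0
      apply hb
      left
      exact sub_eq_zero.1 h0
    rcases hd : T i - T j with _ | ⟨X, Y, H⟩
    · exact absurd hd hne
    · refine ⟨X, Y, H, rfl, ?_⟩
      by_contra hX
      have hq1 : Q ≠ T j := by
        intro h
        exact hTC j hj (Or.inr (Or.inl h.symm))
      have hq3 : Q ≠ T j + T j + T j := by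
        intro h
        exact hTC j hj (Or.inr (Or.inr (Or.inr (Or.inl h.symm))))
      obtain ⟨x', y', h', h, t1, t2, t3, t4⟩ := hTRG L h2 (a : L) (b : L) (c : L) hsep x₀ y₀ h₀
        xj yj hj' hyj (T j) hTj hq1 hq3
      have t1' : (Point.some x' y' h' : Pt (a : L) (b : L) (c : L)) = Q - (T j + T j + T j) := t1
      have hXx : X ≠ x' := by
        intro hXx
        subst hXx
        rcases eq_or_neg H h' with h5 | h5
        · apply hb
          right; left
          show T i = T j + (Q - (T j + T j + T j))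
          rw [← t1', ← h5, ← hd]
          abel
        · apply hb
          right; right; left
          show T i = T j - (Q - (T j + T j + T j))
          rw [← t1', sub_eq_add_neg, ← h5, ← hd]
          abel
      obtain ⟨g', v', s', l1, l2, l3, l4⟩ := hLTN L O π hL (a : L) (b : L) (c : L) x' y' a.2 b.2 c.2
        (onC_of h')
      obtain ⟨z, r, t, m1, m2, m3, m4⟩ := l4 X Y ((Y + y') / (X - x')) (onC_of H) hX hXx
        (div_mul_cancel₀ _ (sub_ne_zero.2 hXx))
      obtain ⟨xx, hxx1, hxx2, ss, hss, hpj⟩ := hTP j hj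
      obtain ⟨xz, hxz1, hxz2, sz, hsz, hpi⟩ := hTP i hi
      rw [hTj, phi_eq hj' hxj] at hpj
      rw [hTi, phi_eq hi' hxi] at hpi
      -- the pair of `LTN` pushed by `h`
      have hu1 : ∀ k, v' k ∈ (O : Set L) := l1.2.2.1
      have K1 : KP3 (O : Set L) π (FP (a : L) (b : L) x₀ y₀) (h * g') v' := kp_push t2 l1
      have hzO : ∀ k, z k ∈ (O : Set L) := by
        intro k
        have h1 := hmem _ (m4 k)
        have h3 : z k = (z k - t * v' k) + t * v' k := by ring
        rw [h3]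
        exact O.add_mem _ _ h1 (O.mul_mem _ _ m3.2.1 (hu1 k))
      have K2 : KP3 (O : Set L) π (FP (a : L) (b : L) x₀ y₀) (h * g') z :=
        ⟨K1.1, K1.2.1, (G6 _ v' z t K1.2.1 hu1 hzO m3 m4).1 K1.2.2⟩
      -- the lifted pairs
      have hvj : ∀ k, v ⟨j, hj⟩ k ∈ (O : Set L) := (hKP ⟨j, hj⟩).2.2.1
      have hvi : ∀ k, v ⟨i, hi⟩ k ∈ (O : Set L) := (hKP ⟨i, hi⟩).2.2.1
      have hcj : ∀ k, (xx k - 1 * v ⟨j, hj⟩ k) / π ∈ (O : Set L) := by
        intro k
        rw [one_mul]
        exact hxx2 k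
      have hci : ∀ k, (xz k - 1 * v ⟨i, hi⟩ k) / π ∈ (O : Set L) := by
        intro k
        rw [one_mul]
        exact hxz2 k
      have K3 : KP3 (O : Set L) π (FP (a : L) (b : L) x₀ y₀) (g ⟨j, hj⟩) xx :=
        ⟨(hKP ⟨j, hj⟩).1, (hKP ⟨j, hj⟩).2.1,
          (G6 _ _ xx 1 (hKP ⟨j, hj⟩).2.1 hvj hxx1 hone hcj).1 (hKP ⟨j, hj⟩).2.2⟩
      have K4 : KP3 (O : Set L) π (FP (a : L) (b : L) x₀ y₀) (g ⟨i, hi⟩) xz :=
        ⟨(hKP ⟨i, hi⟩).1, (hKP ⟨i, hi⟩).2.1,
          (G6 _ _ xz 1 (hKP ⟨i, hi⟩).2.1 hvi hxz1 hone hci).1 (hKP ⟨i, hi⟩).2.2⟩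
      have hphi0 : ∀ T : Pt (a : L) (b : L) (c : L),
          tev (FP (a : L) (b : L) x₀ y₀) (phi x₀ y₀ T) = 0 :=
        (hONT L h2 (a : L) (b : L) (c : L) hsep x₀ y₀ h₀).1
      have Z3 : tev (FP (a : L) (b : L) x₀ y₀) (g ⟨j, hj⟩ *ᵥ xx) = 0 := by
        have h5 := hphi0 (T j)
        rw [hTj, phi_eq hj' hxj] at h5
        rw [hpj, tev_smul_vec, h5, mul_zero]
      have Z4 : tev (FP (a : L) (b : L) x₀ y₀) (g ⟨i, hi⟩ *ᵥ xz) = 0 := by
        have h5 := hphi0 (T i)
        rw [hTi, phi_eq hi' hxi] at h5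
        rw [hpi, tev_smul_vec, h5, mul_zero]
      obtain ⟨s1, hs1, h6⟩ := t3 _ hxj (div_mul_cancel₀ (yj + y₀) (sub_ne_zero.2 hxj))
      have hsum : (Point.some xi yi hi' : Pt (a : L) (b : L) (c : L)) = T j + Point.some X Y H := by
        rw [← hTi, ← hd]
        abel
      obtain ⟨s2, hs2, h7⟩ := t4 xi yi hi' X Y H hsum hxi hXx ((Y + y') / (X - x'))
        ((yi + y₀) / (xi - x₀)) (div_mul_cancel₀ _ (sub_ne_zero.2 hXx))
        (div_mul_cancel₀ _ (sub_ne_zero.2 hxi))
      have E1 : Eq3 (O : Set L) π (g ⟨j, hj⟩) xx (h * g') v' := by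
        refine hUNE L O π hL _ _ _ _ _ (s' * s1 / ss) K3 K1 Z3
          (div_ne_zero (mul_ne_zero l2 hs1) hss) ?_
        rw [← Matrix.mulVec_mulVec, l3, Matrix.mulVec_smul, h6, hpj, smul_smul, smul_smul]
        congr 1
        field_simp
      have E2 : Eq3 (O : Set L) π (g ⟨i, hi⟩) xz (h * g') z := by
        refine hUNE L O π hL _ _ _ _ _ (r * s2 / sz) K4 K2 Z4
          (div_ne_zero (mul_ne_zero m1 hs2) hsz) ?_
        rw [← Matrix.mulVec_mulVec, m2, Matrix.mulVec_smul, h7, hpi, smul_smul, smul_smul]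
        congr 1
        field_simp
      have E3 : Eq3 (O : Set L) π (h * g') v' (h * g') z := by
        refine ⟨1, 1, G1, one_ne_zero, by rw [Matrix.mul_one, one_smul], t, m3, ?_⟩
        intro k
        rw [Matrix.one_mulVec]
        exact m4 k
      have E4 : Eq3 (O : Set L) π (g ⟨j, hj⟩) (v ⟨j, hj⟩) (g ⟨j, hj⟩) xx := by
        refine ⟨1, 1, G1, one_ne_zero, by rw [Matrix.mul_one, one_smul], 1, hone, ?_⟩
        intro k
        rw [Matrix.one_mulVec]
        exact hcj k
      have E5 : Eq3 (O : Set L) π (g ⟨i, hi⟩) (v ⟨i, hi⟩) (g ⟨i, hi⟩) xz := by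
        refine ⟨1, 1, G1, one_ne_zero, by rw [Matrix.mul_one, one_smul], 1, hone, ?_⟩
        intro k
        rw [Matrix.one_mulVec]
        exact hci k
      -- the chain
      have F1 := R2 _ _ _ _ _ _ hvj hxx1 hu1 E4 E1
      have F2 := R2 _ _ _ _ _ _ hvj hu1 hzO F1 E3
      have F3 := R2 _ _ _ _ _ _ hvi hxz1 hzO E5 E2
      have F4 := R1 _ _ _ _ (hKP ⟨i, hi⟩).1 hvi hzO F3
      have F5 := R2 _ _ _ _ _ _ hvj hzO hvi F2 F4
      refine hNE ⟨j, hj⟩ ⟨i, hi⟩ ?_ F5
      intro h8
      have h9 := congrArg Fin.val h8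
      simp only at h9
      omega
  -- differences with `T 0`
  rcases Nat.eq_zero_or_pos M with hM0 | hM0
  · subst hM0
    simp
  have hDf : ∀ k : Fin (M - 1), ∃ (X Y : L)
      (H : (E (a : L) (b : L) (c : L)).toAffine.Nonsingular X Y),
      T (k + 1) - T 0 = Point.some X Y H ∧ X ∈ O := fun k =>
    main (k + 1) 0 (by omega) (by omega)
  choose X Y H hXY hXO using hDf
  have hpair : ∀ k l : Fin (M - 1), l < k → X k ≠ X l ∧ (Y k + Y l) / (X k - X l) ∈ O := by
    intro k l hlk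
    have hlk' : (l : ℕ) < k := hlk
    have hb := hTb (k + 1) (by omega) (l + 1) (by omega)
    have hne : X k ≠ X l := by
      intro hX
      have hH := H k
      have e1 := hXY k
      have : (Point.some (X k) (Y k) (H k) : Pt (a : L) (b : L) (c : L)) =
          Point.some (X l) (Y l) (H l) ∨ (Point.some (X k) (Y k) (H k) : Pt (a : L) (b : L) (c : L)) =
          -(Point.some (X l) (Y l) (H l) : Pt (a : L) (b : L) (c : L)) := by
        have hns : (E (a : L) (b : L) (c : L)).toAffine.Nonsingular (X l) (Y k) := by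
          rw [← hX]
          exact H k
        have e2 : (Point.some (X k) (Y k) (H k) : Pt (a : L) (b : L) (c : L)) =
            Point.some (X l) (Y k) hns := pt_ext hX rfl
        rw [e2]
        exact eq_or_neg hns (H l)
      rcases this with h5 | h5
      · rw [← hXY k, ← hXY l] at h5
        apply hb
        left
        exact sub_left_injective h5
      · rw [← hXY k, ← hXY l] at h5
        apply hb
        right; right; right
        show T (k + 1) = T 0 + T 0 - T (l + 1)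
        have h6 : T (k + 1) = (T (k + 1) - T 0) + T 0 := by abel
        rw [h6, h5]
        abel
    refine ⟨hne, ?_⟩
    obtain ⟨X', Y', H', e1, e2⟩ := diff_pt (H k) (H l) hne
    obtain ⟨X'', Y'', H'', e3, e4⟩ := main (k + 1) (l + 1) (by omega) (by omega)
    have e5 : (Point.some X' Y' H' : Pt (a : L) (b : L) (c : L)) = Point.some X'' Y'' H'' := by
      rw [← e1, ← e3, ← hXY k, ← hXY l]
      abel
    have e6 : X' = X'' := by
      injection e5
    apply sq_mem O
    have e7 : ((Y k + Y l) / (X k - X l)) ^ 2 = X' + (a : L) + X k + X l := by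
      rw [e2]
      ring
    rw [e7, e6]
    exact add_mem (add_mem (add_mem e4 a.2) (hXO k)) (hXO l)
  have hinj : Function.Injective (fun k : Fin (M - 1) => (X k, Y k)) := by
    intro k l hkl
    simp only [Prod.mk.injEq] at hkl
    rcases lt_trichotomy k l with h5 | h5 | h5
    · exact absurd hkl.1.symm (hpair l k h5).1
    · exact h5
    · exact absurd hkl.1 (hpair k l h5).1
  let s : Finset (L × L) := Finset.univ.image (fun k : Fin (M - 1) => (X k, Y k))
  have hcard : s.card = M - 1 := by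
    rw [Finset.card_image_of_injective _ hinj, Finset.card_univ, Fintype.card_fin]
  have hfin := hEBU L O π hL N a b c hdisc s (by
    intro p hp
    simp only [s, Finset.mem_image, Finset.mem_univ, true_and] at hp
    obtain ⟨k, rfl⟩ := hp
    exact ⟨hXO k, hY _ _ (onC_of (H k)) (hXO k), onC_of (H k)⟩) (by
    intro p hp q hq hpq
    simp only [s, Finset.mem_image, Finset.mem_univ, true_and] at hp hq
    obtain ⟨k, rfl⟩ := hp
    obtain ⟨l, rfl⟩ := hq
    rcases lt_trichotomy k l with h5 | h5 | h5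
    · obtain ⟨h6, h7⟩ := hpair l k h5
      refine ⟨h6.symm, ?_⟩
      show (Y k + Y l) / (X k - X l) ∈ O
      have h8 : (Y k + Y l) / (X k - X l) = -((Y l + Y k) / (X l - X k)) := by
        rw [← neg_sub (X l) (X k), div_neg, add_comm]
      rw [h8]
      exact neg_mem h7
    · subst h5
      exact absurd rfl hpq
    · exact hpair k l h5)
  rw [hcard] at hfin
  calc M * AVS.kap O ^ (N - 1) = (M - 1) * AVS.kap O ^ (N - 1) + AVS.kap O ^ (N - 1) := by
        obtain ⟨M', rfl⟩ : ∃ M', M = M' + 1 := ⟨M - 1, by omega⟩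
        rw [Nat.add_sub_cancel]
        ring
    _ ≤ _ := Nat.add_le_add_right hfin _

theorem lcl3_thm (hLAV : LAVStmt) (hONT : ONTStmt) (hTRG : TRGStmt) (hLTN : LTNStmt)
    (hUNE : UNEStmt) (hHNS : HNS3Stmt) (hTOR : TOR3Stmt) (hEBU : AVS.EBUStmt) (hDSC : DSCStmt)
    (hGIR : GIRStmt) (hEQR : EQRStmt) (hDVP : DVPStmt) : LCL3Stmt := by
  intro L _ O π hL N a b c hdisc c₀ hcls M g v hKP hNE
  classical
  have hD : disc (a : L) (b : L) (c : L) ≠ 0 := by
    have e : disc (O.subtype a) (O.subtype b) (O.subtype c) = O.subtype (disc a b c) := by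
      simp only [disc, map_add, map_sub, map_mul, map_pow, map_ofNat]
    intro h
    apply hdisc
    have h1 : disc a b c = 0 := by
      apply Subtype.coe_injective
      exact e.symm.trans h
    rw [h1]
    exact Ideal.zero_mem _
  obtain ⟨Q, hQ, G, hG⟩ := hLAV L O π hL ((a : L), (b : L), (c : L)) hD c₀ hcls {0}
    (Set.finite_singleton _)
  rcases Q with _ | ⟨x₀, y₀, h₀⟩
  · exact absurd rfl hQ
  · refine lcl3_core hONT hTRG hLTN hUNE hHNS hTOR hEBU hDSC hGIR hEQR hDVP L O π hL N a b c hdisc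
      x₀ y₀ h₀ M (fun i => G * g i) v (fun i => kp_push hG (hKP i)) ?_
    intro i j hij hE
    apply hNE i j hij
    obtain ⟨κ, r, hκ, hr, hgg, t, ht, hv⟩ := hE
    refine ⟨κ, r, hκ, hr, ?_, t, ht, hv⟩
    have h1 := congrArg (fun M => G⁻¹ * M) hgg
    simp only [Matrix.mul_smul] at h1
    rw [← Matrix.mul_assoc, Matrix.nonsing_inv_mul G hG.1, Matrix.one_mul, Matrix.mul_assoc G,
      ← Matrix.mul_assoc G⁻¹, Matrix.nonsing_inv_mul G hG.1, Matrix.one_mul] at h1
    exact h1

end Pool.Agent.H87.AV3C
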