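import Pool.Agent.H8.AV3.Stmts5
import Pool.Agent.H95.AV3B.LTL

/-!
# LTN: the lattice of a point of the cubic, and close points
-/

set_option autoImplicit false

namespace Pool.Agent.H87.AV3C

open Polynomial Matrix Pool.AVR Pool.AV3 Pool.Agent.H95.AV3B Pool.Agent.H95.AV3B.LTL

namespace LTN

section

variable {L : Type} [Field L] {O : ValuationSubring L} {π : L}

/-- Coordinates in the kernel of reduction. -/
theorem kerpt (h : AVS.Loc L O π) {a b c x y : L} (ha : a ∈ O) (hb : b ∈ O) (hc : c ∈ O)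
    (hxy : OnC a b c x y) (hx : x ∉ O) : ∃ u w : L, u ≠ 0 ∧ u ∈ O ∧ u⁻¹ ∈ O ∧ w ≠ 0 ∧ w / π ∈ O ∧
      x = u / w ^ 2 ∧ y = u / w ^ 3 ∧
      u ^ 2 = u ^ 3 + a * u ^ 2 * w ^ 2 + b * u * w ^ 4 + c * w ^ 6 := by
  have hx0 : x ≠ 0 := fun h0 => hx (by rw [h0]; exact O.zero_mem)
  have hxi : x⁻¹ ∈ O := by
    rcases O.mem_or_inv_mem x with h1 | h1
    · exact absurd h1 hx
    · exact h1
  have hxip : x⁻¹ / π ∈ O := by
    rw [← h.unif _ hxi (inv_ne_zero hx0), inv_inv]
    exact hx
  set zeta : L := (a + b * x⁻¹ + c * x⁻¹ ^ 2) * x⁻¹ with hzeta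
  have hzp : zeta / π ∈ O := by
    apply mul_div_mem hxip
    exact add_mem (add_mem ha (mul_mem hb hxi)) (mul_mem hc (pow_mem hxi 2))
  obtain ⟨hz0, hz1, hz2⟩ := one_add h hzp
  have hxy' : y ^ 2 = x ^ 3 * (1 + zeta) := by
    have h1 : y ^ 2 = x ^ 3 + a * x ^ 2 + b * x + c := hxy
    rw [h1, hzeta]
    field_simp
    ring
  have hy0 : y ≠ 0 := by
    intro h0
    rw [h0] at hxy'
    have h1 : x ^ 3 * (1 + zeta) ≠ 0 := mul_ne_zero (pow_ne_zero 3 hx0) hz0
    exact h1 (by rw [← hxy']; ring)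
  set u : L := (1 + zeta)⁻¹ with hu
  have hu0 : u ≠ 0 := inv_ne_zero hz0
  have huO : u ∈ O := hz2
  have huiO : u⁻¹ ∈ O := by
    rw [hu, inv_inv]
    exact hz1
  have hux : u * y ^ 2 = x ^ 3 := by
    rw [hxy', hu]
    field_simp
  set w : L := x / y with hw
  have hw0 : w ≠ 0 := div_ne_zero hx0 hy0
  have hxw : x = u / w ^ 2 := by
    rw [hw, div_pow]
    field_simp
    linear_combination -hux
  have hyw : y = u / w ^ 3 := by
    rw [hw, div_pow]
    field_simp
    linear_combination -hux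
  have hwi : w⁻¹ ∉ O := by
    intro h1
    apply hx
    have h2 : x = u * (w⁻¹ * w⁻¹) := by
      rw [hxw]
      field_simp
    rw [h2]
    exact mul_mem huO (mul_mem h1 h1)
  have hwO : w ∈ O := by
    rcases O.mem_or_inv_mem w with h1 | h1
    · exact h1
    · exact absurd h1 hwi
  have hwp : w / π ∈ O := (h.unif w hwO hw0).1 hwi
  have heq : u ^ 2 = u ^ 3 + a * u ^ 2 * w ^ 2 + b * u * w ^ 4 + c * w ^ 6 := by
    have h1 : y ^ 2 = x ^ 3 + a * x ^ 2 + b * x + c := hxy
    have h2 : x * w ^ 2 = u := by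
      rw [hxw]
      field_simp
    have h3 : y * w ^ 3 = u := by
      rw [hyw]
      field_simp
    calc u ^ 2 = (y * w ^ 3) ^ 2 := by rw [h3]
      _ = y ^ 2 * w ^ 6 := by ring
      _ = (x * w ^ 2) ^ 3 + a * (x * w ^ 2) ^ 2 * w ^ 2 + b * (x * w ^ 2) * w ^ 4 +
          c * w ^ 6 := by rw [h1]; ring
      _ = _ := by rw [h2]
  exact ⟨u, w, hu0, huO, huiO, hw0, hwp, hxw, hyw, heq⟩

/-- The key computation for two points in the kernel of reduction. -/
theorem close (h : AVS.Loc L O π) {a b c u w U W : L} (ha : a ∈ O) (hb : b ∈ O) (hc : c ∈ O)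
    (hu0 : u ≠ 0) (huO : u ∈ O) (huiO : u⁻¹ ∈ O) (hwp : w / π ∈ O)
    (heq : u ^ 2 = u ^ 3 + a * u ^ 2 * w ^ 2 + b * u * w ^ 4 + c * w ^ 6)
    (hU0 : U ≠ 0) (hUO : U ∈ O) (hUiO : U⁻¹ ∈ O) (hWp : W / π ∈ O)
    (hEq : U ^ 2 = U ^ 3 + a * U ^ 2 * W ^ 2 + b * U * W ^ 4 + c * W ^ 6)
    (hne : U * w ^ 2 - u * W ^ 2 ≠ 0) :
    u * W + U * w ≠ 0 ∧ (U * w ^ 2 - u * W ^ 2) / (u * W + U * w) / π ∈ O := by
  have hwO := mem_of_div h hwp
  have hWO := mem_of_div h hWp
  set C : L := 1 + -((b * w ^ 3 * (u * U)⁻¹ + c * w ^ 5 * (U + u) * (u * U)⁻¹ ^ 2) * w) with hC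
  have huU : (u * U)⁻¹ ∈ O := by
    rw [mul_inv]
    exact mul_mem huiO hUiO
  obtain ⟨hC0, -, hCi⟩ := one_add (z := -((b * w ^ 3 * (u * U)⁻¹ +
      c * w ^ 5 * (U + u) * (u * U)⁻¹ ^ 2) * w)) h (by
    rw [neg_div]
    apply neg_mem
    apply mul_div_mem hwp
    exact add_mem (mul_mem (mul_mem hb (pow_mem hwO 3)) huU)
      (mul_mem (mul_mem (mul_mem hc (pow_mem hwO 5)) (add_mem hUO huO)) (pow_mem huU 2)))
  rw [← hC] at hC0 hCi
  set B : L := a + b * u * (w ^ 2 + W ^ 2) * (u * U)⁻¹ +
    c * u ^ 2 * (w ^ 4 + w ^ 2 * W ^ 2 + W ^ 4) * (u * U)⁻¹ ^ 2 with hB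
  have hBO : B ∈ O := by
    refine add_mem (add_mem ha ?_) ?_
    · exact mul_mem (mul_mem (mul_mem hb huO) (add_mem (pow_mem hwO 2) (pow_mem hWO 2))) huU
    · exact mul_mem (mul_mem (mul_mem hc (pow_mem huO 2)) (add_mem (add_mem (pow_mem hwO 4)
        (mul_mem (pow_mem hwO 2) (pow_mem hWO 2))) (pow_mem hWO 4))) (pow_mem huU 2)
  have hrel : (U - u) * C = (w ^ 2 - W ^ 2) * B := by
    have e1 : u + a * w ^ 2 + b * w ^ 4 / u + c * w ^ 6 / u ^ 2 = 1 := by
      field_simp
      linear_combination -heq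
    have e2 : U + a * W ^ 2 + b * W ^ 4 / U + c * W ^ 6 / U ^ 2 = 1 := by
      field_simp
      linear_combination -hEq
    have e3 : (U - u) * C - (w ^ 2 - W ^ 2) * B =
        (U + a * W ^ 2 + b * W ^ 4 / U + c * W ^ 6 / U ^ 2) -
        (u + a * w ^ 2 + b * w ^ 4 / u + c * w ^ 6 / u ^ 2) := by
      rw [hC, hB]
      field_simp
      ring
    rw [e1, e2, sub_self] at e3
    linear_combination e3
  set k : L := B * C⁻¹ with hk
  have hkO : k ∈ O := mul_mem hBO hCi
  have hUu : U - u = (w ^ 2 - W ^ 2) * k := by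
    rw [hk]
    field_simp
    exact hrel
  -- S = (w + W) (u + (w - W) k w), D = (w + W) (w - W) (U + W^2 k)
  have hS : u * W + U * w = (w + W) * (u * (1 + u⁻¹ * (w - W) * k * w)) := by
    have : U = u + (w ^ 2 - W ^ 2) * k := by linear_combination hUu
    rw [this]
    field_simp
    ring
  have hD : U * w ^ 2 - u * W ^ 2 = (w + W) * ((w - W) * (U + W ^ 2 * k)) := by
    linear_combination W ^ 2 * hUu
  obtain ⟨hs0, -, hs2⟩ := one_add (z := u⁻¹ * (w - W) * k * w) h
    (mul_div_mem hwp (mul_mem (mul_mem huiO (sub_mem hwO hWO)) hkO))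
  have hwW : w + W ≠ 0 := by
    intro h0
    apply hne
    rw [hD, h0, zero_mul]
  refine ⟨?_, ?_⟩
  · rw [hS]
    exact mul_ne_zero hwW (mul_ne_zero hu0 hs0)
  · have e : (U * w ^ 2 - u * W ^ 2) / (u * W + U * w) / π =
        (w / π - W / π) * (U + W ^ 2 * k) * (u⁻¹ * (1 + u⁻¹ * (w - W) * k * w)⁻¹) := by
      have hπ := h.pi_ne
      rw [hS, hD, mul_div_mul_left _ _ hwW, ← sub_div]
      rw [div_div, div_eq_iff (mul_ne_zero (mul_ne_zero hu0 hs0) hπ)]
      have e5 : (w - W) / π * (U + W ^ 2 * k) * (u⁻¹ * (1 + u⁻¹ * (w - W) * k * w)⁻¹) *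
          (u * (1 + u⁻¹ * (w - W) * k * w) * π) = ((w - W) * (U + W ^ 2 * k)) *
          (u⁻¹ * u) * ((1 + u⁻¹ * (w - W) * k * w)⁻¹ * (1 + u⁻¹ * (w - W) * k * w)) *
          (π / π) := by ring
      rw [e5, inv_mul_cancel₀ hu0, inv_mul_cancel₀ hs0, div_self hπ]
      ring
    rw [e]
    exact mul_mem (mul_mem (sub_mem hwp hWp) (add_mem hUO (mul_mem (pow_mem hWO 2) hkO)))
      (mul_mem huiO hs2)

end

end LTN

open LTN

theorem ltn_thm (hLAT : Pool.AV3.LATStmt) : LTNStmt := by
  intro L _ O π h a b c x y ha hb hc hxy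
  have hπ := h.pi_ne
  have hsq : ∀ z : L, z ^ 2 ∈ O → z ∈ O := by
    intro z hz
    rcases O.mem_or_inv_mem z with h1 | h1
    · exact h1
    · by_cases h0 : z = 0
      · rw [h0]
        exact O.zero_mem
      · have h2 : z = z ^ 2 * z⁻¹ := by
          field_simp
        rw [h2]
        exact O.mul_mem _ _ hz h1
  have hY : ∀ X Y : L, OnC a b c X Y → X ∈ O → Y ∈ O := by
    intro X Y hXY hX
    apply hsq
    have h1 : Y ^ 2 = X ^ 3 + a * X ^ 2 + b * X + c := hXY
    rw [h1]
    exact add_mem (add_mem (add_mem (pow_mem hX 3) (mul_mem ha (pow_mem hX 2))) (mul_mem hb hX)) hc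
  have hone : AVS.UI (O : Set L) (1 : L) :=
    ⟨one_ne_zero, O.one_mem, by rw [inv_one]; exact O.one_mem⟩
  by_cases hx : x ∈ O
  · -- integral points
    have hy : y ∈ O := hY x y hxy hx
    have hc2 : (2 : L) ∈ O := by
      have h1 : (2 : L) = 1 + 1 := by norm_num
      rw [h1]
      exact add_mem O.one_mem O.one_mem
    have hFP : ∀ i, FP a b x y i ∈ O := by
      intro i
      fin_cases i
      · exact O.zero_mem
      · exact O.one_mem
      · exact neg_mem hx
      · exact O.zero_mem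
      · exact O.zero_mem
      · exact mul_mem (neg_mem hc2) hy
      · exact O.zero_mem
      · exact neg_mem O.one_mem
      · exact neg_mem (add_mem hx ha)
      · exact neg_mem (add_mem (add_mem (pow_mem hx 2) (mul_mem ha hx)) hb)
    refine ⟨1, e1, 1, ⟨?_, ?_, ?_⟩, one_ne_zero, ?_, ?_⟩
    · rw [Matrix.det_one]
      exact one_ne_zero
    · intro i
      rw [Matrix.det_one, div_one, tsub_one]
      exact hFP i
    · have hform : (fun i => tsub (FP a b x y) 1 i / (1 : Matrix (Fin 3) (Fin 3) L).det) =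
          FP a b x y := by
        funext i
        rw [Matrix.det_one, div_one, tsub_one]
      rw [hform]
      refine ⟨?_, ⟨1, ?_⟩, ?_, ⟨![0, 0, 1], ?_, ?_⟩, ⟨![1, 1, 0], ?_, ?_, ?_⟩⟩
      · intro i
        fin_cases i
        · exact O.zero_mem
        · exact O.one_mem
        · exact O.zero_mem
      · show (1 : L) / π ∉ O
        exact one_not h
      · rw [fp_e1, zero_div]
        exact O.zero_mem
      · intro i
        fin_cases i
        · exact O.zero_mem
        · exact O.zero_mem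
        · exact O.one_mem
      · rw [tder_fp]
        show -(1 : L) / π ∉ O
        intro h2
        apply one_not h
        have h3 : 1 / π = -(-(1 : L) / π) := by ring
        rw [h3]
        exact neg_mem h2
      · intro i
        fin_cases i
        · exact O.one_mem
        · exact O.one_mem
        · exact O.zero_mem
      · rw [tder_fp]
        show -(0 : L) / π ∈ O
        rw [neg_zero, zero_div]
        exact O.zero_mem
      · rw [tev_fp _ _ _ _ _ rfl]
        show (1 : L) ^ 2 * 1 / π ∉ O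
        rw [one_pow, one_mul]
        exact one_not h
    · rw [Matrix.one_mulVec, one_smul]
    · intro X Y M hXY hX hne hM
      obtain ⟨U, W, hU0, hUO, hUiO, hW0, hWp, hXW, hYW, -⟩ := kerpt h ha hb hc hXY hX
      have hWO := mem_of_div h hWp
      have hX0 : X ≠ 0 := fun h0 => hX (by rw [h0]; exact O.zero_mem)
      obtain ⟨hd0, -, hd2⟩ := one_add (z := -(x * W * U⁻¹ * W)) h (by
        rw [neg_div]
        apply neg_mem
        exact mul_div_mem hWp (mul_mem (mul_mem hx hWO) hUiO))
      set d : L := 1 + -(x * W * U⁻¹ * W) with hd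
      have hMW : M * W * (U * d) = U + y * W ^ 3 := by
        have e1 : M * (X - x) * W ^ 3 = (Y + y) * W ^ 3 := by rw [hM]
        have e2 : (X - x) * W ^ 3 = W * (U * d) := by
          rw [hXW, hd]
          field_simp
          ring
        have e3 : (Y + y) * W ^ 3 = U + y * W ^ 3 := by
          rw [hYW]
          field_simp
        rw [e3, mul_assoc, e2] at e1
        linear_combination e1
      refine ⟨![M / X, 1, 1 / X], X⁻¹, 1, inv_ne_zero hX0, ?_, hone, ?_⟩
      · rw [Matrix.one_mulVec]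
        funext i
        fin_cases i
        · show M / X = X⁻¹ * M
          ring
        · show (1 : L) = X⁻¹ * X
          rw [inv_mul_cancel₀ hX0]
        · show 1 / X = X⁻¹ * 1
          ring
      · intro i
        fin_cases i
        · show (M / X - 1 * 0) / π ∈ O
          have e1 : (M / X - 1 * 0) / π = (U + y * W ^ 3) * U⁻¹ * (U⁻¹ * d⁻¹) * W / π := by
            congr 1
            have e4 : M * W = (U + y * W ^ 3) * (U⁻¹ * d⁻¹) := by
              rw [← hMW]
              field_simp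
            rw [mul_zero, sub_zero, hXW]
            have e5 : M / (U / W ^ 2) = M * W * U⁻¹ * W := by
              field_simp
            rw [e5, e4]
            ring
          rw [e1]
          apply mul_div_mem hWp
          exact mul_mem (mul_mem (add_mem hUO (mul_mem hy (pow_mem hWO 3))) hUiO)
            (mul_mem hUiO hd2)
        · show ((1 : L) - 1 * 1) / π ∈ O
          rw [mul_one, sub_self, zero_div]
          exact O.zero_mem
        · show (1 / X - 1 * 0) / π ∈ O
          have e1 : (1 / X - 1 * 0) / π = W * U⁻¹ * W / π := by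
            congr 1
            rw [hXW]
            field_simp
            ring
          rw [e1]
          exact mul_div_mem hWp (mul_mem hWO hUiO)
  · -- points in the kernel of reduction
    obtain ⟨u, w, hu0, huO, huiO, hw0, hwp, hxw, hyw, heq⟩ := kerpt h ha hb hc hxy hx
    have hwO := mem_of_div h hwp
    obtain ⟨c', hc', hE⟩ := hLAT L O.toSubring a b c u u w 0 u⁻¹ ha hb hc huO huO hwO
      (Subring.zero_mem _) huiO hw0 (by rw [zero_mul, zero_add]; exact inv_mul_cancel₀ hu0) heq
    rw [← hxw, ← hyw] at hE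
    set g : Matrix (Fin 3) (Fin 3) L :=
      !![w ^ 2, -(u * u⁻¹ ^ 2 * w), -(u * u⁻¹ / w); 0, 1, 0; 0, 0, 1] with hg
    have hdet : g.det = w ^ 2 := by
      rw [hg, Matrix.det_fin_three]
      simp
    have hgne : g.det ≠ 0 := by
      rw [hdet]
      exact pow_ne_zero 2 hw0
    have hg0 : ∀ z : Fin 3 → L, (g *ᵥ z) 0 = w ^ 2 * z 0 - u⁻¹ * w * z 1 - w⁻¹ * z 2 := by
      intro z
      rw [mulVec3]
      simp only [hg, Matrix.of_apply, Matrix.cons_val, Matrix.cons_val']
      field_simp
      ring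
    have hg1 : ∀ z : Fin 3 → L, (g *ᵥ z) 1 = z 1 := by
      intro z
      rw [mulVec3]
      simp only [hg, Matrix.of_apply, Matrix.cons_val, Matrix.cons_val']
      ring
    have hg2 : ∀ z : Fin 3 → L, (g *ᵥ z) 2 = z 2 := by
      intro z
      rw [mulVec3]
      simp only [hg, Matrix.of_apply, Matrix.cons_val, Matrix.cons_val']
      ring
    have hform : (fun i => tsub (FP a b x y) g i / g.det) = c' := by
      funext i
      rw [hE.2]
      show g.det * c' i / g.det = c' i
      field_simp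
    have hgv : g *ᵥ ![u⁻¹, w, 0] = w • (e1 : Fin 3 → L) := by
      funext i
      fin_cases i
      · show (g *ᵥ ![u⁻¹, w, 0]) 0 = w * 0
        rw [hg0]
        show w ^ 2 * u⁻¹ - u⁻¹ * w * w - w⁻¹ * 0 = w * 0
        ring
      · show (g *ᵥ ![u⁻¹, w, 0]) 1 = w * 1
        rw [hg1]
        show w = w * 1
        ring
      · show (g *ᵥ ![u⁻¹, w, 0]) 2 = w * 0
        rw [hg2]
        show (0 : L) = w * 0
        ring
    have hder : ∀ z : Fin 3 → L, tder c' ![u⁻¹, w, 0] z = -z 2 := by
      intro z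
      have h1 := hE.tder ![u⁻¹, w, 0] z
      rw [hgv, tder_smul_left, tder_fp, hg2, hdet] at h1
      have h2 : w ^ 2 ≠ 0 := pow_ne_zero 2 hw0
      exact (mul_left_cancel₀ h2 h1).symm
    refine ⟨g, ![u⁻¹, w, 0], w, ⟨hgne, ?_, ?_⟩, hw0, hgv, ?_⟩
    · intro i
      have h1 := congrFun hform i
      rw [h1]
      exact hc' i
    · rw [hform]
      refine ⟨?_, ⟨0, ?_⟩, ?_, ⟨![0, 0, 1], ?_, ?_⟩, ⟨![0, 1, 0], ?_, ?_, ?_⟩⟩
      · intro i
        fin_cases i
        · exact huiO
        · exact hwO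
        · exact O.zero_mem
      · show u⁻¹ / π ∉ O
        exact unit_not h (inv_ne_zero hu0) huiO (by rw [inv_inv]; exact huO)
      · have h1 := hE.tev ![u⁻¹, w, 0]
        rw [hgv, tev_smul_vec, fp_e1, mul_zero] at h1
        have h2 : tev c' ![u⁻¹, w, 0] = 0 := by
          rcases mul_eq_zero.1 h1.symm with h3 | h3
          · exact absurd h3 hgne
          · exact h3
        rw [h2, zero_div]
        exact O.zero_mem
      · intro i
        fin_cases i
        · exact O.zero_mem
        · exact O.zero_mem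
        · exact O.one_mem
      · rw [hder]
        show -(1 : L) / π ∉ O
        intro h2
        apply one_not h
        have h3 : 1 / π = -(-(1 : L) / π) := by ring
        rw [h3]
        exact neg_mem h2
      · intro i
        fin_cases i
        · exact O.zero_mem
        · exact O.one_mem
        · exact O.zero_mem
      · rw [hder]
        show -(0 : L) / π ∈ O
        rw [neg_zero, zero_div]
        exact O.zero_mem
      · have h1 := hE.tev ![0, 1, 0]
        rw [tev_fp _ _ _ _ _ (by rw [hg2]; rfl), hg0, hg1, hdet] at h1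
        have h2 : tev c' ![0, 1, 0] = u⁻¹ ^ 2 := by
          have h3 : w ^ 2 ≠ 0 := pow_ne_zero 2 hw0
          apply mul_left_cancel₀ h3
          rw [← h1]
          show (w ^ 2 * 0 - u⁻¹ * w * 1 - w⁻¹ * 0) ^ 2 * 1 = w ^ 2 * u⁻¹ ^ 2
          ring
        rw [h2]
        apply unit_not h (pow_ne_zero 2 (inv_ne_zero hu0)) (pow_mem huiO 2)
        rw [inv_pow, inv_inv]
        exact pow_mem huO 2
    · intro X Y M hXY hX hne hM
      obtain ⟨U, W, hU0, hUO, hUiO, hW0, hWp, hXW, hYW, hEq⟩ := kerpt h ha hb hc hXY hX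
      have hWO := mem_of_div h hWp
      have hDne : U * w ^ 2 - u * W ^ 2 ≠ 0 := by
        intro h0
        apply hne
        rw [hXW, hxw, div_eq_div_iff (pow_ne_zero 2 hW0) (pow_ne_zero 2 hw0)]
        linear_combination h0
      obtain ⟨hS0, hSp⟩ := close h ha hb hc hu0 huO huiO hwp heq hU0 hUO hUiO hWp hEq hDne
      set D : L := U * w ^ 2 - u * W ^ 2 with hD
      set S : L := u * W + U * w with hS
      -- M W w D = U w^3 + u W^3
      have hMD : M * (W * w * D) = U * w ^ 3 + u * W ^ 3 := by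
        have e1 : M * (X - x) * (W ^ 3 * w ^ 3) = (Y + y) * (W ^ 3 * w ^ 3) := by rw [hM]
        have e2 : (X - x) * (W ^ 3 * w ^ 3) = W * w * D := by
          rw [hXW, hxw, hD]
          field_simp
        have e3 : (Y + y) * (W ^ 3 * w ^ 3) = U * w ^ 3 + u * W ^ 3 := by
          rw [hYW, hyw]
          field_simp
        rw [e3, mul_assoc, e2] at e1
        exact e1
      have hr0 : u * W ^ 2 * D / (U * S) ≠ 0 :=
        div_ne_zero (mul_ne_zero (mul_ne_zero hu0 (pow_ne_zero 2 hW0)) hDne) (mul_ne_zero hU0 hS0)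
      have hMeq : M = (U * w ^ 3 + u * W ^ 3) / (W * w * D) := by
        rw [eq_div_iff (mul_ne_zero (mul_ne_zero hW0 hw0) hDne)]
        exact hMD
      refine ⟨![1, u * (D / S), u * W ^ 2 * D / (U * S)], u * W ^ 2 * D / (U * S), u, hr0, ?_,
        ⟨hu0, huO, huiO⟩, ?_⟩
      · have hX' : u * (D / S) = u * W ^ 2 * D / (U * S) * X := by
          rw [hXW]
          field_simp
        funext i
        fin_cases i
        · show (g *ᵥ ![1, u * (D / S), u * W ^ 2 * D / (U * S)]) 0 =
            u * W ^ 2 * D / (U * S) * M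
          rw [hg0]
          show w ^ 2 * 1 - u⁻¹ * w * (u * (D / S)) - w⁻¹ * (u * W ^ 2 * D / (U * S)) =
            u * W ^ 2 * D / (U * S) * M
          rw [hMeq]
          have e7 : w ^ 2 * S * U * w = w ^ 2 * D * U + u * W ^ 2 * D + u * W * (U * w ^ 3 + u * W ^ 3) := by
            rw [hS, hD]
            ring
          field_simp
          linear_combination e7
        · show (g *ᵥ ![1, u * (D / S), u * W ^ 2 * D / (U * S)]) 1 =
            u * W ^ 2 * D / (U * S) * X
          rw [hg1]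
          exact hX'
        · show (g *ᵥ ![1, u * (D / S), u * W ^ 2 * D / (U * S)]) 2 =
            u * W ^ 2 * D / (U * S) * 1
          rw [hg2, mul_one]
          rfl
      · intro i
        fin_cases i
        · show ((1 : L) - u * u⁻¹) / π ∈ O
          rw [mul_inv_cancel₀ hu0, sub_self, zero_div]
          exact O.zero_mem
        · show (u * (D / S) - u * w) / π ∈ O
          have e1 : (u * (D / S) - u * w) / π = u * (D / S / π) - u * (w / π) := by ring
          rw [e1]
          exact sub_mem (mul_mem huO hSp) (mul_mem huO hwp)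
        · show (u * W ^ 2 * D / (U * S) - u * 0) / π ∈ O
          have e1 : (u * W ^ 2 * D / (U * S) - u * 0) / π = u * W ^ 2 * U⁻¹ * (D / S / π) := by
            rw [mul_zero, sub_zero]
            field_simp
          rw [e1]
          exact mul_mem (mul_mem (mul_mem huO (pow_mem hWO 2)) hUiO) hSp

end Pool.Agent.H87.AV3C
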